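import Pool.Agent.D0H43.L9.StmS
import Pool.Agent.N883.FF.Lk
import Pool.Agent.D0H43.L3.Supp

/-!
# Project L9, task LKX (helper42): the `L`-function of `y² + D y = x³` over `ℚ(ω)`,
`D = 3 ^ m ω ^ i ∏ π_j ^ (e j)`, `m = 1, 2`

Adapted from `Pool.Agent.N883.FF.Lk` (`m = 0`).
-/

set_option autoImplicit false
set_option linter.unusedVariables false

namespace Pool.Agent.D0H42.L9.Lkx

open NumberField IsDedekindDomain WeierstrassCurve
open Pool.Agent.W189.NF (aV eV redMap Ov mem_max_iff finite_res card_res redMap_eq_zero aLoc eLoc)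
open Pool.Agent.H921R2.TatePole (nm two_le_nm)
open Pool.Agent.Y703.CT
open Pool.Agent.Y696 Pool.Agent.Y696.CT
open Pool.Agent.Y696.CTK
open Pool.Agent.Y692.QS hiding chi
open Pool.Agent.Y715.T.Rec (cs nn w_add)
open Pool.Agent.Y715.T.RecG (Pq cs_spec cs_mul cs_pow cs_of)
open Pool.Agent.R419.CE (three_pD pi_dvd_pD val_ne)
open Pool.Agent.N883.FF (nq)
open Pool.Agent.N883.FF.Lk (isUnit_wpow)
open Pool.Agent.D0H43.L3 (yq tq IsHLT)
open Pool.Agent.D0H43.L3.Supp (supp cs_w cop_prim)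
open Pool.Agent.D0H43.L3.Chi (yq_mul yq_unit ndvd_of_cop)
open Pool.Agent.D0H43.L9
open scoped Classical

lemma not3 {α : Ei} (h : (3 : Ei) ∣ α - 1) : ¬ (3 : ℤ) ∣ nr α := ep_ndvd h

lemma cop_of {α : Ei} (h : ¬ (3 : ℤ) ∣ nr α) : IsCoprime α 3 := by
  have h1 := cop_prim (ns_prim h)
  obtain ⟨u, hu⟩ := ns_assoc h
  rw [← hu]
  exact IsCoprime.mul_left h1 ⟨((u⁻¹ : Eiˣ) : Ei), 0, by
    rw [zero_mul, add_zero, Units.inv_mul]⟩

lemma xq_mul (m : ℕ) (i : ZMod 3) {x y : Ei} (hx : IsCoprime x 3) (hy : IsCoprime y 3) :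
    xq m i (x * y) = xq m i x + xq m i y := by
  unfold xq
  rw [Pool.Agent.N883.FF.Chi.nq_mul hx hy, yq_mul hx hy]
  ring

lemma xq_one' (m : ℕ) (i : ZMod 3) : xq m i 1 = 0 := by
  unfold xq
  rw [Pool.Agent.N883.FF.Chi.nq_unit isUnit_one, yq_unit isUnit_one, mul_zero, mul_zero, add_zero]

/-! ### the function -/

section
variable {J : Type} [Fintype J] {π : J → Ei} {e : J → ZMod 3}

/-- the summand -/
noncomputable def gX (π : J → Ei) (e : J → ZMod 3) (m : ℕ) (i : ZMod 3) (s : ℂ) (α : Ei) : ℂ :=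
  if (3 : ℤ) ∣ nr α then 0 else
    toC α * (chD π e α * toC w ^ (-xq m i α).val) * ((nr α : ℤ) : ℂ) ^ (-s)

lemma gX_prim (π : J → Ei) (e : J → ZMod 3) (m : ℕ) (i : ZMod 3) (s : ℂ) {α : Ei}
    (h : ¬ (3 : ℤ) ∣ nr α) : gX π e m i s α =
      toC α * (chD π e α * toC w ^ (-xq m i α).val) * ((nr α : ℤ) : ℂ) ^ (-s) := if_neg h

lemma gX_one (hpq : ∀ j, Pq (π j)) (e : J → ZMod 3) (m : ℕ) (i : ZMod 3) (s : ℂ) :
    gX π e m i s 1 = 1 := by
  rw [gX_prim _ _ _ _ _ (by rw [nr_one]; decide), chD_one hpq, nr_one, map_one, Int.cast_one,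
    Complex.one_cpow, xq_one', neg_zero, ZMod.val_zero, pow_zero, mul_one, mul_one, mul_one]

lemma gX_mul (hpq : ∀ j, Pq (π j)) (e : J → ZMod 3) (m : ℕ) (i : ZMod 3) (s : ℂ) (α β : Ei) :
    gX π e m i s (α * β) = gX π e m i s α * gX π e m i s β := by
  unfold gX
  by_cases h1 : (3 : ℤ) ∣ nr α
  · rw [if_pos h1, if_pos (by rw [nr_mul]; exact Dvd.dvd.mul_right h1 _), zero_mul]
  by_cases h2 : (3 : ℤ) ∣ nr β
  · rw [if_pos h2, if_pos (by rw [nr_mul]; exact Dvd.dvd.mul_left h2 _), mul_zero]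
  have h3 : ¬ (3 : ℤ) ∣ nr (α * β) := by
    rw [nr_mul]
    intro h
    exact (Int.prime_three.dvd_or_dvd h).elim h1 h2
  rw [if_neg h1, if_neg h2, if_neg h3, chD_mul hpq, map_mul, nr_cpow,
    xq_mul m i (cop_of h1) (cop_of h2), neg_add, tw_add]
  ring

lemma pX_eq (m : ℕ) (π : J → Ei) (e : J → ZMod 3) (i : ZMod 3) :
    pX m π e i = 3 ^ m * (w ^ i.val * pD π e) := rfl

/-- the symbol of `D` -/
lemma cs_pX {ρ : Ei} (hρ : Pq ρ) (m : ℕ) (i : ZMod 3) (hD : ¬ ρ ∣ pD π e) :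
    cs ρ (pX m π e i) = xq m i ρ + cs ρ (pD π e) := by
  have hw : ¬ ρ ∣ w := fun h => hρ.prime.not_isUnit (isUnit_of_dvd_unit h (by
    simpa using isUnit_wpow 1))
  have hw' : ¬ ρ ∣ w ^ i.val := fun h => hρ.prime.not_isUnit (isUnit_of_dvd_unit h (isUnit_wpow _))
  have h3 : ¬ ρ ∣ (3 : Ei) := hρ.norm
  have h3' : ¬ ρ ∣ (3 : Ei) ^ m := fun h => h3 (hρ.prime.dvd_of_dvd_pow h)
  have hwD : ¬ ρ ∣ w ^ i.val * pD π e := fun h => (hρ.prime.dvd_or_dvd h).elim hw' hD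
  rw [pX_eq, cs_mul hρ.prime hρ.norm h3' hwD, cs_pow hρ.prime hρ.norm h3,
    cs_mul hρ.prime hρ.norm hw' hD, cs_pow hρ.prime hρ.norm hw, ZMod.natCast_zmod_val, cs_w hρ,
    supp hρ]
  unfold xq
  ring

lemma not_dvd {ρ : Ei} (m : ℕ) (i : ZMod 3) (hD : ¬ ρ ∣ pX m π e i) : ¬ ρ ∣ pD π e := fun h => hD (by
  rw [pX_eq]
  exact Dvd.dvd.mul_left (Dvd.dvd.mul_left h _) _)

lemma of_dvd {ρ : Ei} (hρ : Pq ρ) (m : ℕ) (i : ZMod 3) (hD : ρ ∣ pX m π e i) : ρ ∣ pD π e := by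
  rw [pX_eq] at hD
  rcases hρ.prime.dvd_or_dvd hD with h | h
  · exact absurd (hρ.prime.dvd_of_dvd_pow h) hρ.norm
  rcases hρ.prime.dvd_or_dvd h with h | h
  · exact absurd (isUnit_of_dvd_unit h (isUnit_wpow _)) hρ.prime.not_isUnit
  · exact h

/-- the value at the primes -/
lemma gX_prime (hrec : S_REC) (hdt : Dt π e) {ρ : Ei} (hρ : Pq ρ) (m : ℕ) (i : ZMod 3)
    (hD : ¬ ρ ∣ pX m π e i) (z : ℂ) :
    gX π (fun k => -e k) m i z ρ =
      toC (w ^ (-cs ρ (pX m π e i)).val * ρ) * ((nr ρ : ℤ) : ℂ) ^ (-z) := by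
  have h1 := chD_prime hrec hdt (Or.inl rfl) hρ (not_dvd m i hD)
  rw [gX_prim _ _ _ _ _ (ep_ndvd hρ.three)]
  have h2 : -cs ρ (pX m π e i) = -cs ρ (pD π e) + -xq m i ρ := by
    rw [cs_pX hρ m i (not_dvd m i hD)]
    ring
  rw [h1, h2, map_mul, map_pow, tw_add]
  ring

end

section
variable {K : Type} [Field K] [NumberField K] (j : Ei ≃+* 𝓞 K)
variable {J : Type} [Fintype J] {π : J → Ei} {e : J → ZMod 3}

lemma tht_rest (hdt : Dt π e) (i : ZMod 3) : ¬ tht ∣ w ^ i.val * pD π e := by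
  intro h
  rcases tht_prime.dvd_or_dvd h with h | h
  · exact absurd (isUnit_of_dvd_unit h (isUnit_wpow _)) tht_prime.not_isUnit
  have h3 : tht ∣ (3 : Ei) := ⟨-tht, by linear_combination tht_sq⟩
  have h2 := dvd_sub h (dvd_trans h3 (three_pD hdt))
  rw [sub_sub_cancel] at h2
  exact tht_prime.not_isUnit (isUnit_of_dvd_one h2)

/-- at the prime above three -/
theorem bad_three {P : HeightOneSpectrum Ei} (h : (3 : ℤ) ∣ nr (gn P.asIdeal)) (hdt : Dt π e)
    (i : ZMod 3) {m : ℕ} (h1 : 1 ≤ m) (h2 : m ≤ 2) :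
    aV (ED (j (pX m π e i) : K)) (pK j P) = 0 ∧ eV (ED (j (pX m π e i) : K)) (pK j P) = 0 := by
  have hs := three_span h
  refine bad_of (t := j tht) (r := (j (w ^ i.val * pD π e)) ^ 4) (m := 6 + 8 * m) ?_
    (pK_span j hs) (by omega) ?_ ?_
  · rw [Ne, map_eq_zero_iff j j.injective]
    exact tht_prime.ne_zero
  · intro h4
    have h5 := (pK j P).isPrime.mem_of_pow_mem 4 h4
    rw [mem_pK, hs, Ideal.mem_span_singleton] at h5
    exact tht_rest hdt i h5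
  · have h7 : (-27 : 𝓞 K) = (j tht) ^ 6 := by
      rw [← map_pow]
      have : tht ^ 6 = -27 := by decide
      rw [this, map_neg, map_ofNat]
    have h8 : (3 : 𝓞 K) ^ 4 = (j tht) ^ 8 := by
      rw [← map_pow]
      have : tht ^ 8 = 3 ^ 4 := by decide
      rw [this, map_pow, map_ofNat]
    rw [h7, pX_eq, map_mul, map_pow, map_ofNat, mul_pow, ← pow_mul, mul_comm m 4, pow_mul, h8,
      pow_add, pow_mul]
    ring

/-- at the primes dividing `D` -/
theorem bad_D {P : HeightOneSpectrum Ei} (hdt : Dt π e) (m : ℕ) (c : ZMod 3) {i : J}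
    (h : P.asIdeal = Ideal.span {π i}) :
    aV (ED (j (pX m π e c) : K)) (pK j P) = 0 ∧
      eV (ED (j (pX m π e c) : K)) (pK j P) = 0 := by
  have hi := hdt.pq i
  have hsp : pD π e = π i ^ (e i).val * ∏ l ∈ Finset.univ.erase i, π l ^ (e l).val := by
    unfold pD
    exact (Finset.mul_prod_erase Finset.univ (fun l => π l ^ (e l).val) (Finset.mem_univ i)).symm
  refine bad_of (t := j (π i)) (r := -27 * (j (3 ^ m * (w ^ c.val *
    ∏ l ∈ Finset.univ.erase i, π l ^ (e l).val))) ^ 4)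
    (m := 4 * (e i).val) ?_ (pK_span j h) ?_ ?_ ?_
  · rw [Ne, map_eq_zero_iff j j.injective]
    exact hi.prime.ne_zero
  · have h1 : (e i).val < 3 := ZMod.val_lt _
    have h2 : (e i).val ≠ 0 := val_ne (hdt.e0 i)
    omega
  · intro h4
    rcases (pK j P).isPrime.mem_or_mem h4 with h5 | h5
    · have h6 : (-27 : 𝓞 K) = j (-(3 ^ 3)) := by
        rw [map_neg, map_pow, map_ofNat]
        norm_num
      rw [h6, mem_pK, h, Ideal.mem_span_singleton, dvd_neg] at h5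
      exact hi.norm (hi.prime.dvd_of_dvd_pow h5)
    · have h6 := (pK j P).isPrime.mem_of_pow_mem 4 h5
      rw [mem_pK, h, Ideal.mem_span_singleton] at h6
      rcases hi.prime.dvd_or_dvd h6 with h6 | h6
      · exact hi.norm (hi.prime.dvd_of_dvd_pow h6)
      rcases hi.prime.dvd_or_dvd h6 with h8 | h8
      · exact hi.prime.not_isUnit (isUnit_of_dvd_unit h8 (isUnit_wpow _))
      · rw [Prime.dvd_finsetProd_iff hi.prime] at h8
        obtain ⟨l, hl, h7⟩ := h8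
        exact hdt.nd l i (Finset.ne_of_mem_erase hl) (hi.prime.dvd_of_dvd_pow h7)
  · rw [pX_eq, hsp]
    simp only [map_mul, map_pow]
    ring

/-- the factor of the Hecke `L`-function and its conjugate -/
theorem factorK (hrec : S_REC) (hdt : Dt π e) (c : ZMod 3) {m : ℕ} (hm1 : 1 ≤ m) (hm2 : m ≤ 2)
    (s : ℂ) (P : HeightOneSpectrum Ei) :
    HBd (aV (ED (j (pX m π e c) : K)) (pK j P))
      (eV (ED (j (pX m π e c) : K)) (pK j P)) (nm (pK j P)) ∧
    (1 - (aV (ED (j (pX m π e c) : K)) (pK j P) : ℂ) * (nm (pK j P) : ℂ) ^ (-s) +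
      (eV (ED (j (pX m π e c) : K)) (pK j P) : ℂ) * ((nm (pK j P) : ℂ) ^ (-s)) ^ 2)⁻¹ =
    (1 - fI (gX π (fun i => -e i) m c s) P.asIdeal)⁻¹ *
      (starRingEnd ℂ) ((1 - fI (gX π (fun i => -e i) m c ((starRingEnd ℂ) s)) P.asIdeal)⁻¹) := by
  have hbad : aV (ED (j (pX m π e c) : K)) (pK j P) = 0 ∧
      eV (ED (j (pX m π e c) : K)) (pK j P) = 0 →
      (∀ z, fI (gX π (fun i => -e i) m c z) P.asIdeal = 0) →
      HBd (aV (ED (j (pX m π e c) : K)) (pK j P))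
      (eV (ED (j (pX m π e c) : K)) (pK j P)) (nm (pK j P)) ∧
    (1 - (aV (ED (j (pX m π e c) : K)) (pK j P) : ℂ) * (nm (pK j P) : ℂ) ^ (-s) +
      (eV (ED (j (pX m π e c) : K)) (pK j P) : ℂ) * ((nm (pK j P) : ℂ) ^ (-s)) ^ 2)⁻¹ =
    (1 - fI (gX π (fun i => -e i) m c s) P.asIdeal)⁻¹ *
      (starRingEnd ℂ) ((1 - fI (gX π (fun i => -e i) m c ((starRingEnd ℂ) s)) P.asIdeal)⁻¹) := by
    rintro ⟨h1, h2⟩ h3
    refine ⟨Or.inl ⟨h1, h2⟩, ?_⟩
    rw [h1, h2, h3, h3]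
    simp
  by_cases h3 : (3 : ℤ) ∣ nr (gn P.asIdeal)
  · refine hbad (bad_three j h3 hdt c hm1 hm2) fun z => ?_
    unfold fI
    rw [if_pos h3]
  · set α := ns (gn P.asIdeal) with hα
    have hs := span_ns h3
    rw [← hα] at hs
    have hpq := pq_ns h3
    rw [← hα] at hpq
    have hfI : ∀ g : Ei → ℂ, fI g P.asIdeal = g α := fun g => by
      rw [hs, fI_prim g hpq.three]
    by_cases hD : α ∣ pX m π e c
    · have hD' := of_dvd hpq m c hD
      obtain ⟨i, hi⟩ := dvd_pD hpq.prime hdt hD'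
      refine hbad (bad_D j hdt m c (i := i) ?_) fun z => ?_
      · rw [hs]
        exact Ideal.span_singleton_eq_span_singleton.2
          ((hdt.pq i).prime.associated_of_dvd hpq.prime hi).symm
      · rw [hfI, gX_prim _ _ _ _ _ (ep_ndvd hpq.three),
          chD_bad hpq.prime hdt (Or.inl rfl) hD', zero_mul, mul_zero, zero_mul]
    · obtain ⟨v1, v2⟩ := good_val j hpq (pK_span j hs) hD
      have hnm := nm_nr j (pK_span j hs)
      set x := toC (w ^ (-cs α (pX m π e c)).val * α) with hx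
      have hxx : x * (starRingEnd ℂ) x = (nm (pK j P) : ℂ) := by
        rw [Complex.mul_conj, hx, toC_normSq, nr_mul]
        have h5 : nr (w ^ (-cs α (pX m π e c)).val) = 1 := by
          generalize -cs α (pX m π e c) = c
          revert c
          decide
        rw [h5, one_mul, ← hnm]
        push_cast
        rfl
      have hg : ∀ z, gX π (fun i => -e i) m c z α = x * (nm (pK j P) : ℂ) ^ (-z) := by
        intro z
        rw [gX_prime hrec hdt hpq m c hD z, ← hnm, hx]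
        push_cast
        rfl
      refine ⟨Or.inr ⟨x, v1, ?_, hxx⟩, ?_⟩
      · rw [v2, hxx]
      · rw [hfI, hfI, hg, hg, v1, v2, map_inv₀, map_sub, map_one, map_mul, conj_nat_cpow',
          map_neg, Complex.conj_conj, ← mul_inv]
        congr 1
        linear_combination (-(((nm (pK j P) : ℕ) : ℂ) ^ (-s)) ^ 2) * hxx

end

end Pool.Agent.D0H42.L9.Lkx

namespace Pool.Agent.D0H42.L9

open NumberField IsDedekindDomain WeierstrassCurve
open Pool.Agent.W189.NF (aV eV)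
open Pool.Agent.H921R2.TatePole (nm)
open Pool.Agent.Y692.QS (Ei w nr toC)
open Pool.Agent.Y703.CT
open Pool.Agent.Y696 Pool.Agent.Y696.CT
open Pool.Agent.Y696.CTK
open Pool.Agent.D0H43.L9
open Lkx

/-- **L9-LKX.** -/
theorem lkx : S_LKX := by
  intro K _ _ j J _ π e i m hm1 hm2 hdt F hF s hs
  have hrec : S_REC := Pool.Agent.Y350.CT.rec
  have hsum : ∀ z : ℂ, 3 / 2 < z.re → HasSum (fun α : {α : Ei // (3 : Ei) ∣ α - 1} =>
      gX π (fun k => -e k) m i z α) (F z) := by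
    intro z hz
    refine (hF.2 z hz).congr_fun fun α => ?_
    exact gX_prim _ _ _ _ _ (ep_ndvd α.2)
  have hsc : 3 / 2 < ((starRingEnd ℂ) s).re := by rwa [Complex.conj_re]
  have h1 := hsum s hs
  have h2 := hsum _ hsc
  have h3 := hasProd_Ei (gX_one hdt.pq _ _ _ s) (gX_mul hdt.pq _ _ _ s) h1
  have h4 := (hasProd_Ei (gX_one hdt.pq _ _ _ ((starRingEnd ℂ) s)) (gX_mul hdt.pq _ _ _ _) h2).map
    (starRingEnd ℂ) Complex.continuous_conj
  have h5 := h3.mul h4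
  have hE : ∀ v : HeightOneSpectrum (𝓞 K), HBd (aV (ED (j (pX m π e i) : K)) v)
      (eV (ED (j (pX m π e i) : K)) v) (nm v) := by
    intro v
    obtain ⟨P, rfl⟩ := (eK j).surjective v
    exact (factorK j hrec hdt i hm1 hm2 s P).1
  obtain ⟨h6, h7⟩ := LSeries_hasProd' (ED (j (pX m π e i) : K)) hE hs
  refine ⟨h6, ?_⟩
  have h8 := (eK j).hasProd_iff.2 h7
  refine h5.unique (h8.congr_fun fun P => ?_)
  exact ((factorK j hrec hdt i hm1 hm2 s P).2).symm

end Pool.Agent.D0H42.L9
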